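import Pool.Agent.H89.FLT.S

/-! Row SUB of the board `flt`. -/

set_option autoImplicit false

open Matrix

namespace Pool.FLT

theorem lam_zero37 {n : ℕ} (g : GR n) : (0 : aa n) ∈ Lam g := by
  refine ⟨1, fun _ => 1, ?_, fun i => by simp⟩
  unfold Dg cst
  rw [Matrix.map_one _ (by simp) (by simp), one_mul]
  have h : (Matrix.diagonal (fun _ : Fin n => (1 : ℝ))) = 1 := Matrix.diagonal_one
  rw [h, mul_one]

theorem lam_add37 {n : ℕ} (g : GR n) {x y : aa n} (hx : x ∈ Lam g) (hy : y ∈ Lam g) :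
    x + y ∈ Lam g := by
  obtain ⟨η, d, h1, h2⟩ := hx
  obtain ⟨θ, e, h3, h4⟩ := hy
  refine ⟨η * θ, fun i => d i * e i, ?_, fun i => ?_⟩
  · unfold Dg cst at *
    have hm : (η * θ).map (Int.cast : ℤ → ℝ) = η.map (Int.cast : ℤ → ℝ) * θ.map (Int.cast : ℤ → ℝ) :=
      Matrix.map_mul (f := Int.castRingHom ℝ)
    rw [hm, Matrix.mul_assoc, h3, ← Matrix.mul_assoc, h1, Matrix.mul_assoc, Matrix.diagonal_mul_diagonal]
  · rw [abs_mul, h2, h4, ← Real.exp_add]
    rfl

theorem lam_neg37 {n : ℕ} (g : GR n) {x : aa n} (hx : x ∈ Lam g) : -x ∈ Lam g := by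
  obtain ⟨η, d, h1, h2⟩ := hx
  have hs : ∑ i, (x : EuclideanSpace ℝ (Fin n)) i = 0 := x.2
  have hd0 : ∀ i, d i ≠ 0 := fun i h => by
    have := h2 i
    rw [h, abs_zero] at this
    exact (Real.exp_pos _).ne this
  -- the determinant
  have hdet : (cst η).det = ∏ i, d i := by
    have h3 := congrArg Matrix.det h1
    rw [Matrix.det_mul, Matrix.det_mul, Matrix.det_diagonal, g.2, mul_one, one_mul] at h3
    exact h3
  have hcast : (cst η).det = ((η.det : ℤ) : ℝ) := by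
    unfold cst
    exact ((Int.castRingHom ℝ).map_det η).symm
  have habs : |((η.det : ℤ) : ℝ)| = 1 := by
    rw [← hcast, hdet, Finset.abs_prod]
    rw [Finset.prod_congr rfl (fun i _ => h2 i), ← Real.exp_sum, hs, Real.exp_zero]
  have hu : IsUnit η.det := by
    rw [Int.isUnit_iff_abs_eq]
    have h4 : ((|η.det| : ℤ) : ℝ) = ((1 : ℤ) : ℝ) := by
      rw [Int.cast_abs, habs, Int.cast_one]
    exact_mod_cast h4
  have hmul : η * η⁻¹ = 1 := Matrix.mul_nonsing_inv η hu
  have hmul' : η⁻¹ * η = 1 := Matrix.nonsing_inv_mul η hu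
  refine ⟨η⁻¹, fun i => (d i)⁻¹, ?_, fun i => ?_⟩
  · unfold Dg cst at *
    have hm : (η⁻¹).map (Int.cast : ℤ → ℝ) * η.map (Int.cast : ℤ → ℝ) = 1 := by
      have h5 : (η⁻¹ * η).map (Int.cast : ℤ → ℝ)
          = (η⁻¹).map (Int.cast : ℤ → ℝ) * η.map (Int.cast : ℤ → ℝ) :=
        Matrix.map_mul (f := Int.castRingHom ℝ)
      rw [← h5, hmul']
      exact Matrix.map_one _ (by simp) (by simp)
    have hD : Matrix.diagonal d * Matrix.diagonal (fun i => (d i)⁻¹) = 1 := by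
      rw [Matrix.diagonal_mul_diagonal]
      have : (fun i => d i * (d i)⁻¹) = fun _ : Fin n => (1 : ℝ) := by
        funext i
        exact mul_inv_cancel₀ (hd0 i)
      rw [this]
      exact Matrix.diagonal_one
    have hgD : (g : Matrix (Fin n) (Fin n) ℝ)
        = η.map (Int.cast : ℤ → ℝ) * ((g : Matrix (Fin n) (Fin n) ℝ) * Matrix.diagonal (fun i => (d i)⁻¹)) := by
      rw [← Matrix.mul_assoc, h1, Matrix.mul_assoc, hD, mul_one]
    calc (η⁻¹).map (Int.cast : ℤ → ℝ) * (g : Matrix (Fin n) (Fin n) ℝ)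
        = (η⁻¹).map (Int.cast : ℤ → ℝ) * (η.map (Int.cast : ℤ → ℝ)
            * ((g : Matrix (Fin n) (Fin n) ℝ) * Matrix.diagonal (fun i => (d i)⁻¹))) := by rw [← hgD]
      _ = (g : Matrix (Fin n) (Fin n) ℝ) * Matrix.diagonal (fun i => (d i)⁻¹) := by
          rw [← Matrix.mul_assoc, hm, one_mul]
  · rw [abs_inv, h2, ← Real.exp_neg]
    rfl

theorem sub : SUBStmt := by
  intro n g
  exact ⟨{ carrier := Lam g
           add_mem' := fun hx hy => lam_add37 g hx hy
           zero_mem' := lam_zero37 g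
           neg_mem' := fun hx => lam_neg37 g hx }, rfl⟩

end Pool.FLT
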